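import Pool.Agent.Q68.OV.Line

/-!
# The transcendental part of one singular K3 surface and finitely many cubics `T(x, y, z) = 1`

Let `S` be **one** singular K3 surface over `ℚ`. The question Q1 for `S` is whether the period of the
regulator of every nonzero `ξ` in `H_M^3(S, ℚ(4))_tr` is a nonzero rational multiple of
`L'(h^2_tr(S), -1)` (`PeriodStatement`).

For a smooth projective scheme `Y` over `ℚ` let `M^m(Y) = H_M^{2m-5}(Y, ℚ(m))`,
`D^m(Y) = H_𝒟^{2m-5}(Y_ℝ, ℝ(m))`, and `r : M^m(Y) → D^m(Y)` the regulator; here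
`M^4(S) = H_M^3(S, ℚ(4))` contains `T = H_M^3(S, ℚ(4))_tr`, and `D^4(S) = H^2(S(ℂ), ℝ(3))^+` contains the
real line `P` of the transcendental classes; the period of a class in `P` is `(2πi)^{-3}` times its pairing
with `γ`.
The cycles `c` on `S × Y` of the codimension `m - 2` operate by `c_*` on both, from the index `4` on `S`
to the index `m` on `Y`. Let `V ⊆ P` be the rational line of the classes whose period is a rational
multiple of `L'(h^2_tr(S), -1)`. Let `A^m(Y) ⊆ D^m(Y)` be the rational subspace generated by the images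
`c_* V`, and `B^m(Y) = B_1^m(Y) ⊕ B_2^m(Y)`, where `B_1^m(Y) ⊆ D^m(Y)` is generated by `A^m(Y)` and the
`c_* r(x)`, `x` in `T`, and `B_2^m(Y) ⊆ M^m(Y)` by the `c_* x`, `x` in `T` with `r(x) = 0`, for
all cycles `c` as above. They are additive functors of the Chow motive of `Y`, and the map
`A^m(Y) → B^m(Y)` (the inclusion in `B_1^m(Y)`) is bijective if and only if all these `c_* r(x)` are in
`A^m(Y)` and all these `c_* x` with `r(x) = 0` are zero (`LineStable`). For a separated scheme `Z` of finite
type over `ℚ` let `W(Z)` be its weight complex (Gillet, Soulé; `W(Z) = h(Z)` for smooth projective `Z`), and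
put `A^{m,i}(Z) = H^i(A^m(W(Z)))`, `B^{m,i}(Z) = H^i(B^m(W(Z)))`. `At C m Z` says that the maps
`A^{m,i}(Z) → B^{m,i}(Z)` are isomorphisms for this `m` and all `i`, `BijAll C Z` that they are
isomorphisms for all `m` and `i`.

**Theorem.** There are finite lists `L`, `L'` of trilinear forms over `ℚ` and a finite list `G` of
tripartite hypergraphs, which depend only on `S`, with the following properties.

(1) Each form in `L` has at least three variables in each of its three blocks, and at most **four**
in one of them. The question Q1 has a positive answer for `S` (`PeriodStatement`) if and only if the maps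
`A^{m,i}(Z) → B^{m,i}(Z)` are isomorphisms, for all `m` and `i`, for the finitely many smooth affine cubic
hypersurfaces `Z : T(x, y, z) = 1`, `T` in `L`. If it has, they are isomorphisms for all `T` over `ℚ`.

(2) It has if and only if, for the finitely many hypersurfaces `T = 1`, `T` in `L'`, and the **one** index
`m = a + 3`, `a` the number of the variables `x_i`, the maps are isomorphisms for all `i`.

(3) It has if and only if the maps are isomorphisms for the finitely many hypersurfaces
`∑_{(i, j, l) ∈ H} x_i y_j z_l = 1`, `H` in `G`.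

(4) The maps are isomorphisms for all forms with a block of at most two variables
(`zero`: in dimension zero by the theorem of Borel on `K_5` of number fields).
-/

set_option autoImplicit false

open CategoryTheory CategoryTheory.Limits AlgebraicGeometry Pool.Agent.Y116.UV Pool.Agent.Z125.UN
  Pool.Agent.Q193.LT Pool.Agent.Q49.WU Pool.Agent.Q68.OV

universe w u

namespace Pool.Agent.Results.MP_870c49_nt.FinitelyManyCubics

/-- A singular K3 surface `S` over `ℚ`: `M m Y` and `D m Y` are `H_M^{2m-5}(Y, ℚ(m))` and
`H_𝒟^{2m-5}(Y_ℝ, ℝ(m))`, `Cyc m Y` is the type of the cycles of codimension `m - 2` on `S × Y`, `T` and `P`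
are `H_M^3(S, ℚ(4))_tr` and `H^2(S(ℂ), ℝ(3))^+_tr`, `per` is the period `(2πi)^{-3} ⟨γ, ·⟩`, and `lval` is
`L'(h^2_tr(S), -1)`, which is not zero. -/
abbrev SingularData (S : Sch ℚ) := LineData.{w, u} ℚ S 4

/-- The maps are isomorphisms for the index `m`. -/
def At (C : PairData.{w} ℚ (ℤ × ℤ) ℚ) (m : ℤ) (Z : Sch ℚ) : Prop := BijAt C Prod.fst m Z

/-- **The transcendental part of one singular K3 surface and finitely many cubics.** See the explanations above. -/
theorem result {S : Sch ℚ} (hS : SmoothProj S) (hn : topologicalKrullDim S.left ≤ (2 : ℕ)) :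
    ∃ (L L' : List (Form ℚ)) (G : List Graph), (∀ t ∈ L, t.Block 4 ∧ ¬ t.Block 2) ∧
      ∀ (D : SingularData.{w, u} S) (C : PairData.{w} ℚ (ℤ × ℤ) ℚ), IsLine D → IsWeightPair C →
        WeightGen C → (∀ Y, SmoothProj Y → ∀ m, (At C m Y ↔ LineStable D m Y)) →
        (zero : ∀ Y : Sch ℚ, SmoothProj Y → topologicalKrullDim Y.left ≤ (0 : ℕ) → BijAll C Y) →
        (PeriodStatement D ↔ ∀ t ∈ L, BijAll C t.hyp) ∧
        (PeriodStatement D ↔ ∀ t ∈ L', At C (t.a + 3) t.hyp) ∧
        (PeriodStatement D ↔ ∀ g ∈ G, BijAll C (g.hyp ℚ)) ∧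
        (PeriodStatement D → ∀ t : Form ℚ, BijAll C t.hyp) ∧
        (∀ t : Form ℚ, t.Block 2 → BijAll C t.hyp) := by
  obtain ⟨L, L', G, hL, h⟩ := line_finite.{w, u} hS hn 0 4
  refine ⟨L, L', G, hL, fun D C hD hC hg bij zero => ?_⟩
  obtain ⟨h3, h4, h5, h6, h7⟩ := h D C hD hC hg bij zero
  refine ⟨h3, h4.trans ?_, h5 frac_rat, h6, h7⟩
  have e : ∀ t : Form ℚ, (4 : ℤ) - 1 + t.a = t.a + 3 := fun t => by ring
  constructor
  · intro h t ht
    have h1 := h t ht
    rwa [e t] at h1
  · intro h t ht
    rw [e t]
    exact h t ht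

end Pool.Agent.Results.MP_870c49_nt.FinitelyManyCubics
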