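import Mathlib

/-!
# Beilinson's conjecture for the transcendental part of singular K3 surfaces is a statement on ranks

`Surface` is the set of singular K3 surfaces over `ℚ`. For such a surface `X` let
`V X = H^3_M(X, ℚ(4))_tr`, `val X = L'(h^2_tr(X), -1)`, and let `reg X : V X → ℝ` be the map
`ξ ↦ (2πi)^{-3} ⟨γ, reg_{X,tr}(ξ)⟩` for a fixed generator `γ` of the one-dimensional space
`H_2(X(ℂ), ℚ)^-_tr` (another generator changes it by a nonzero rational factor). Question Q1 for `X` is
`Q1 X`: `reg X ξ` is a nonzero rational multiple of `L'(h^2_tr(X), -1)` for all `ξ ≠ 0`.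

Known facts (`IsKThree`):

* `ne`: `L'(h^2_tr(X), -1) ≠ 0` (functional equation of the newform `f_X` of weight `3` of Livné);
* `deninger`: there is a `ξ` in `V X` with `reg X ξ ∈ ℚ^× L'(h^2_tr(X), -1)` (Deninger's theorem on Hecke
  characters of imaginary quadratic fields);
* `same`: if `f_X = f_Y`, the Chow motives `h^2_tr(X)` and `h^2_tr(Y)` are isomorphic (Shioda, Inose; these
  motives are finite-dimensional). So there is an isomorphism `V X ≅ V Y`, compatible with the regulators
  up to a nonzero rational factor;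
* `split`: let `K` be a multiquadratic field (the index set `X K` are the `[K : ℚ]` characters of
  `Gal(K/ℚ)`, with the trivial one). There are singular K3 surfaces `S^χ` over `ℚ` with the newforms
  `f_S ⊗ χ` (Elkies, Schütt), and `VK S K = H^3_M(S_K, ℚ(4))_tr` is the direct sum of the `V (S^χ)`;
* `cm`: for the imaginary quadratic field `K = cm S` by which `f_S` has complex multiplication one has
  `f_S ⊗ χ = f_S` for the two characters `χ` of `Gal(K/ℚ)`.

**Theorem.**

1. For every `X` the following are equivalent: question Q1 for `X`; `H^3_M(X, ℚ(4))_tr` has dimension one;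
   `reg X` is injective with image `ℚ · L'(h^2_tr(X), -1)`; the regulator
   `H^3_M(X, ℚ(4))_tr ⊗ ℝ → H^3_D(X_ℝ, ℝ(4))_tr` is bijective; `H^3_M(X_K, ℚ(4))_tr` has dimension two for the
   field `K` of complex multiplication.
2. Question Q1 for `X` depends only on the newform `f_X`.
3. For `X` and a multiquadratic field `K`, question Q1 is true for all the surfaces `X^χ`, `χ` a character of
   `Gal(K/ℚ)`, if and only if `H^3_M(X_K, ℚ(4))_tr` has dimension `[K : ℚ]`. In general this dimension is at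
   least `[K : ℚ]`, if it is finite.
4. Let `S` be a set of singular K3 surfaces such that every `f_X` is a quadratic twist of `f_Y` for some `Y`
   in `S`. Question Q1 has a positive answer for all `X` if and only if
   `dim H^3_M(Y_K, ℚ(4))_tr = [K : ℚ]` for all `Y` in `S` and all multiquadratic fields `K`. (There are
   finitely many `f_X` up to quadratic twists, so that `S` can be chosen finite.)

No `L`-function occurs in the conditions on dimensions.
-/

set_option autoImplicit false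

open scoped TensorProduct

namespace Pool.Agent.Results.MP_870c49_nt.RankOne

/-- Singular K3 surfaces over `ℚ`, motivic cohomology, regulators, `L`-values. -/
structure KThree where
  /-- singular K3 surfaces over `ℚ` -/
  Surface : Type
  /-- newforms of weight three -/
  Form : Type
  /-- the newform of a surface -/
  form : Surface → Form
  /-- `H^3_M(X, ℚ(4))_tr` -/
  V : Surface → Type
  [addV : ∀ S, AddCommGroup (V S)]
  [modV : ∀ S, Module ℚ (V S)]
  /-- the regulator, integrated over the generator `γ` -/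
  reg : ∀ S, V S →ₗ[ℚ] ℝ
  /-- `L'(h^2_tr(X), -1)` -/
  val : Surface → ℝ
  /-- multiquadratic fields -/
  Field : Type
  /-- the characters of `Gal(K/ℚ)` -/
  X : Field → Type
  [finX : ∀ K, Fintype (X K)]
  /-- the surfaces `S^χ` -/
  twist : Surface → (K : Field) → X K → Surface
  /-- `H^3_M(S_K, ℚ(4))_tr` -/
  VK : Surface → Field → Type
  [addVK : ∀ S K, AddCommGroup (VK S K)]
  [modVK : ∀ S K, Module ℚ (VK S K)]
  /-- the field of complex multiplication -/
  cm : Surface → Field

attribute [instance] KThree.addV KThree.modV KThree.finX KThree.addVK KThree.modVK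

/-- The known facts, see above. -/
structure IsKThree (D : KThree) : Prop where
  ne : ∀ S, D.val S ≠ 0
  deninger : ∀ S, ∃ (ξ : D.V S) (r : ℚ), r ≠ 0 ∧ D.reg S ξ = r * D.val S
  same : ∀ S T, D.form S = D.form T → D.val S = D.val T ∧
    ∃ (e : D.V S ≃ₗ[ℚ] D.V T) (s : ℚ), s ≠ 0 ∧ ∀ ξ, D.reg T (e ξ) = s * D.reg S ξ
  split : ∀ S K, Nonempty (D.VK S K ≃ₗ[ℚ] ∀ χ, D.V (D.twist S K χ))
  cm : ∀ S, Fintype.card (D.X (D.cm S)) = 2 ∧ ∀ χ, D.form (D.twist S (D.cm S) χ) = D.form S

/-- Question Q1 for the surface `S`. -/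
def Q1 (D : KThree) (S : D.Surface) : Prop :=
  ∀ ξ : D.V S, ξ ≠ 0 → ∃ r : ℚ, r ≠ 0 ∧ D.reg S ξ = r * D.val S

section linear

variable {V : Type} [AddCommGroup V] [Module ℚ V] (f : V →ₗ[ℚ] ℝ) {L : ℝ}

lemma q1_iff_finrank (hL : L ≠ 0) (h0 : ∃ (α : V) (r : ℚ), r ≠ 0 ∧ f α = r * L) :
    (∀ α : V, α ≠ 0 → ∃ r : ℚ, r ≠ 0 ∧ f α = r * L) ↔ Module.finrank ℚ V = 1 := by
  obtain ⟨α₀, r₀, hr₀, h1⟩ := h0
  have hα₀ : α₀ ≠ 0 := by
    rintro rfl
    rw [map_zero] at h1
    exact mul_ne_zero (by exact_mod_cast hr₀) hL h1.symm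
  constructor
  · intro h
    refine finrank_eq_one α₀ hα₀ fun α => ?_
    by_cases hα : α = 0
    · exact ⟨0, by rw [hα, zero_smul]⟩
    · obtain ⟨r, hr, h2⟩ := h α hα
      refine ⟨r / r₀, ?_⟩
      by_contra h3
      obtain ⟨s, hs, h4⟩ := h _ (sub_ne_zero.mpr h3)
      have h5 : f ((r / r₀) • α₀ - α) = 0 := by
        rw [map_sub, map_smul, h1, h2, Rat.smul_def]
        push_cast
        have h6 : (r₀ : ℝ) ≠ 0 := by exact_mod_cast hr₀
        field_simp
        ring
      rw [h5] at h4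
      exact mul_ne_zero (by exact_mod_cast hs) hL h4.symm
  · intro h α hα
    obtain ⟨c, rfl⟩ := (finrank_eq_one_iff_of_nonzero' α₀ hα₀).mp h α
    have hc : c ≠ 0 := by
      rintro rfl
      exact hα (zero_smul _ _)
    refine ⟨c * r₀, mul_ne_zero hc hr₀, ?_⟩
    rw [map_smul, h1, Rat.smul_def]
    push_cast
    ring

lemma q1_iff_image (hL : L ≠ 0) (h0 : ∃ (α : V) (r : ℚ), r ≠ 0 ∧ f α = r * L) :
    (∀ α : V, α ≠ 0 → ∃ r : ℚ, r ≠ 0 ∧ f α = r * L) ↔
      Function.Injective f ∧ Set.range f = {x : ℝ | ∃ r : ℚ, x = r * L} := by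
  constructor
  · intro h
    have hinj : Function.Injective f := by
      rw [injective_iff_map_eq_zero]
      intro α hα
      by_contra h1
      obtain ⟨r, hr, h2⟩ := h α h1
      rw [hα] at h2
      exact mul_ne_zero (by exact_mod_cast hr) hL h2.symm
    refine ⟨hinj, Set.eq_of_subset_of_subset ?_ ?_⟩
    · rintro _ ⟨α, rfl⟩
      by_cases hα : α = 0
      · exact ⟨0, by rw [hα, map_zero]; simp⟩
      · obtain ⟨r, _, h2⟩ := h α hα
        exact ⟨r, h2⟩
    · rintro x ⟨r, rfl⟩
      obtain ⟨α₀, r₀, hr₀, h1⟩ := h0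
      refine ⟨(r / r₀) • α₀, ?_⟩
      have h6 : (r₀ : ℝ) ≠ 0 := by exact_mod_cast hr₀
      rw [map_smul, h1, Rat.smul_def]
      push_cast
      field_simp
  · rintro ⟨hinj, him⟩ α hα
    have h1 : f α ∈ Set.range f := ⟨α, rfl⟩
    rw [him] at h1
    obtain ⟨r, hr⟩ := h1
    refine ⟨r, ?_, hr⟩
    rintro rfl
    rw [Rat.cast_zero, zero_mul] at hr
    exact hα ((injective_iff_map_eq_zero f).mp hinj α hr)

lemma finrank_iff_bijective (h0 : ∃ α : V, f α ≠ 0) :
    Module.finrank ℚ V = 1 ↔ Function.Bijective (LinearMap.liftBaseChange ℝ f) := by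
  have h1 : Module.finrank ℝ (ℝ ⊗[ℚ] V) = Module.finrank ℚ V := Module.finrank_baseChange
  constructor
  · intro h
    rw [h] at h1
    have h2 : Function.Surjective (LinearMap.liftBaseChange ℝ f) := by
      obtain ⟨α, hα⟩ := h0
      intro x
      refine ⟨(x / f α) ⊗ₜ α, ?_⟩
      rw [LinearMap.liftBaseChange_tmul, smul_eq_mul, div_mul_cancel₀ _ hα]
    have : Module.Finite ℝ (ℝ ⊗[ℚ] V) := Module.finite_of_finrank_pos (by omega)
    refine ⟨?_, h2⟩
    exact (LinearMap.injective_iff_surjective_of_finrank_eq_finrank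
      (by rw [h1, Module.finrank_self])).mpr h2
  · intro h
    rw [← h1, (LinearEquiv.ofBijective _ h).finrank_eq, Module.finrank_self]

end linear

variable {D : KThree}

lemma rank_iff (h : IsKThree D) (S : D.Surface) : Q1 D S ↔ Module.finrank ℚ (D.V S) = 1 :=
  q1_iff_finrank (D.reg S) (h.ne S) (h.deninger S)

lemma form_iff (h : IsKThree D) {S T : D.Surface} (hS : D.form S = D.form T) : Q1 D S ↔ Q1 D T := by
  obtain ⟨-, e, -⟩ := h.same S T hS
  rw [rank_iff h, rank_iff h, e.finrank_eq]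

lemma nontrivial_class (h : IsKThree D) (S : D.Surface) : Nontrivial (D.V S) := by
  obtain ⟨α, r, hr, h1⟩ := h.deninger S
  refine ⟨α, 0, ?_⟩
  rintro rfl
  rw [map_zero] at h1
  exact mul_ne_zero (by exact_mod_cast hr) (h.ne S) h1.symm

lemma factors_finite {S : D.Surface} {K : D.Field} (e : D.VK S K ≃ₗ[ℚ] ∀ χ, D.V (D.twist S K χ))
    [Module.Finite ℚ (D.VK S K)] (χ : D.X K) : Module.Finite ℚ (D.V (D.twist S K χ)) :=
  Module.Finite.of_surjective
    ((LinearMap.proj (R := ℚ) (φ := fun χ : D.X K => D.V (D.twist S K χ)) χ).comp e.toLinearMap)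
    fun x => by
      classical
      refine ⟨e.symm (Pi.single χ x), ?_⟩
      simp

lemma card_le (h : IsKThree D) (S : D.Surface) (K : D.Field)
    [Module.Finite ℚ (D.VK S K)] : Fintype.card (D.X K) ≤ Module.finrank ℚ (D.VK S K) := by
  obtain ⟨e⟩ := h.split S K
  have h1 := factors_finite e
  rw [e.finrank_eq, Module.finrank_pi_fintype, Fintype.card_eq_sum_ones]
  refine Finset.sum_le_sum fun χ _ => ?_
  have := nontrivial_class h (D.twist S K χ)
  exact Module.finrank_pos

lemma twists_iff (h : IsKThree D) (S : D.Surface) (K : D.Field) (hK : 0 < Fintype.card (D.X K)) :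
    (∀ χ, Q1 D (D.twist S K χ)) ↔ Module.finrank ℚ (D.VK S K) = Fintype.card (D.X K) := by
  obtain ⟨e⟩ := h.split S K
  simp only [rank_iff h]
  constructor
  · intro h1
    have h2 : ∀ χ, Module.Finite ℚ (D.V (D.twist S K χ)) := fun χ =>
      Module.finite_of_finrank_pos (by rw [h1 χ]; exact one_pos)
    rw [e.finrank_eq, Module.finrank_pi_fintype, Finset.sum_congr rfl fun χ _ => h1 χ,
      ← Fintype.card_eq_sum_ones]
  · intro h1 χ
    have : Module.Finite ℚ (D.VK S K) := by
      refine Module.finite_of_finrank_pos ?_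
      rw [h1]
      exact hK
    have h2 := factors_finite e
    rw [e.finrank_eq, Module.finrank_pi_fintype, Fintype.card_eq_sum_ones] at h1
    have h3 : ∀ ψ ∈ Finset.univ, 1 ≤ Module.finrank ℚ (D.V (D.twist S K ψ)) := fun ψ _ => by
      have := nontrivial_class h (D.twist S K ψ)
      exact Module.finrank_pos
    exact ((Finset.sum_eq_sum_iff_of_le h3).mp h1.symm χ (Finset.mem_univ χ)).symm

lemma cm_iff (h : IsKThree D) (S : D.Surface) :
    Q1 D S ↔ Module.finrank ℚ (D.VK S (D.cm S)) = 2 := by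
  obtain ⟨h1, h2⟩ := h.cm S
  have h3 : 0 < Fintype.card (D.X (D.cm S)) := by rw [h1]; exact two_pos
  have h4 := twists_iff h S (D.cm S) h3
  rw [h1] at h4
  rw [← h4]
  obtain ⟨χ⟩ := Fintype.card_pos_iff.mp h3
  exact ⟨fun h5 ψ => (form_iff h (h2 ψ)).mpr h5, fun h5 => (form_iff h (h2 χ)).mp (h5 χ)⟩

/-- **Beilinson's conjecture for singular K3 surfaces is a statement on ranks.** See the explanations above;
`[K : ℚ]` is the number of the characters. -/
theorem result (h : IsKThree D) :
    (∀ S : D.Surface,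
      (Q1 D S ↔ Module.finrank ℚ (D.V S) = 1) ∧
      (Q1 D S ↔ Function.Injective (D.reg S) ∧
        Set.range (D.reg S) = {x : ℝ | ∃ r : ℚ, x = r * D.val S}) ∧
      (Q1 D S ↔ Function.Bijective (LinearMap.liftBaseChange ℝ (D.reg S))) ∧
      (Q1 D S ↔ Module.finrank ℚ (D.VK S (D.cm S)) = 2)) ∧
    (∀ S T, D.form S = D.form T → (Q1 D S ↔ Q1 D T)) ∧
    (∀ S K, 0 < Fintype.card (D.X K) →
      ((∀ χ, Q1 D (D.twist S K χ)) ↔
        Module.finrank ℚ (D.VK S K) = Fintype.card (D.X K)) ∧
      (Module.Finite ℚ (D.VK S K) → Fintype.card (D.X K) ≤ Module.finrank ℚ (D.VK S K))) ∧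
    (∀ S : Set D.Surface, (∀ T, ∃ Y ∈ S, ∃ K χ, D.form (D.twist Y K χ) = D.form T) →
      ((∀ T, Q1 D T) ↔ ∀ Y ∈ S, ∀ K, 0 < Fintype.card (D.X K) →
        Module.finrank ℚ (D.VK Y K) = Fintype.card (D.X K))) := by
  refine ⟨fun S => ⟨rank_iff h S, q1_iff_image (D.reg S) (h.ne S) (h.deninger S), ?_, cm_iff h S⟩,
    fun S T => form_iff h, fun S K hK => ⟨twists_iff h S K hK, fun _ => card_le h S K⟩,
    fun S hS => ⟨fun h1 Y _ K hK => (twists_iff h Y K hK).mp fun χ => h1 _, fun h1 T => ?_⟩⟩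
  · obtain ⟨α, r, hr, h1⟩ := h.deninger S
    refine (rank_iff h S).trans (finrank_iff_bijective (D.reg S) ⟨α, ?_⟩)
    rw [h1]
    exact mul_ne_zero (by exact_mod_cast hr) (h.ne S)
  · obtain ⟨Y, hY, K, χ, h2⟩ := hS T
    have hK : 0 < Fintype.card (D.X K) := Fintype.card_pos_iff.mpr ⟨χ⟩
    exact (form_iff h h2).mp ((twists_iff h Y K hK).mpr (h1 Y hY K hK) χ)

end Pool.Agent.Results.MP_870c49_nt.RankOne
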