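import Pool.Agent.Q45.ML.Der

/-!
# `L'(h²_tr(X), -1)` for singular K3 surfaces from smoothed Frobenius traces

Let `X` be a singular K3 surface over `ℚ`; `h²_tr(X)` has rank `2` and weight `2`. Let `P p ∈ ℚ[X]` be the inverse
characteristic polynomial of the geometric Frobenius on the inertia invariants of `H²(X)_tr`, with reciprocal roots
`α p 0, α p 1` (one or both zero at bad primes), `|α p j| ≤ p`, and let `F` be the continuation of its `L`-function,
entire with `F(-1) = 0 ≠ F'(-1)`. For `γ > π/2` put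

`S(T) = ∑_p ∑_{k ≥ 1} ((α p 0^k + α p 1^k) p^k / k) e^{iγ k log p/T} / Γ(1 + k log p/T)`.

Then `T e^{S(T)} e^{-Λ} = F'(-1) + O(1/T)`; the sign of `F'(-1)` is determined by the real zeros of `F`; and a regulator
value `ρ = (2πi)^{-3} ⟨γ, reg ξ⟩` which is not zero is a nonzero rational multiple of `F'(-1)` if and only if for some
`D ≥ 1` the numbers `D T e^{S(T)} e^{-Λ} / ρ` approach the integers along one sequence.
-/

set_option autoImplicit false

namespace Pool.Agent.Results.MP_870c49_nt.TranscendentalDerivative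

open Filter Topology Asymptotics Polynomial Pool.Agent.Q45.ML

/-- the term at `(p, k)`, `k = z.2 + 1`: `((∑_j α p j^k) p^k / k) e^{iγ k log p/T} / Γ(1 + k log p/T)` -/
noncomputable def term (α : Nat.Primes → Fin 2 → ℂ) (γ T : ℝ) (z : Nat.Primes × ℕ) : ℂ :=
  (∑ j, α z.1 j ^ (z.2 + 1)) * (z.1 : ℂ) ^ (z.2 + 1) / (z.2 + 1) *
    (Complex.exp ((γ * ((z.2 + 1) * Real.log (z.1 : ℝ) / T) : ℝ) * Complex.I) /
      (Real.Gamma (1 + (z.2 + 1) * Real.log (z.1 : ℝ) / T) : ℂ))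

/-- the smoothed sum -/
noncomputable def S (α : Nat.Primes → Fin 2 → ℂ) (γ T : ℝ) : ℂ := ∑' z, term α γ T z

/-- the constant `Λ(γ) = ∫_0^∞ (e^{-t} - e^{iγt}/Γ(1+t)) dt/t` -/
noncomputable def Lam (γ : ℝ) : ℂ := Pool.Agent.W187.UR.Lam γ

/-- the number of zeros of `F` on `(-1, ∞)`, with multiplicities -/
noncomputable def count (F : ℂ → ℂ) : ℤ :=
  ∑ᶠ σ ∈ Set.Ioi (-1 : ℝ), (meromorphicOrderAt F (σ : ℂ)).untop₀

/-- the distance from the integers -/
noncomputable def distInt (z : ℂ) : ℝ := Metric.infDist z (Set.range fun a : ℤ => (a : ℂ))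

theorem term_eq (α : Nat.Primes → Fin 2 → ℂ) (γ T : ℝ) (z : Nat.Primes × ℕ) :
    term α γ T z = sterm (fun p : Nat.Primes => (p : ℝ)) α (-1) γ T z := by
  unfold term sterm
  congr 1
  have hp : (z.1 : ℂ) ≠ 0 := by exact_mod_cast z.1.2.ne_zero
  have e : ((((z.2 : ℝ) + 1) * (-1 : ℝ) : ℝ) : ℂ) = ((-(z.2 + 1 : ℕ) : ℤ) : ℂ) := by
    push_cast; ring
  rw [e, Complex.cpow_intCast, zpow_neg, zpow_natCast]
  push_cast
  field_simp

theorem result (P : Nat.Primes → ℚ[X]) (α : Nat.Primes → Fin 2 → ℂ)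
    (hP : ∀ p, (P p).map (algebraMap ℚ ℂ) = ∏ j, (1 - C (α p j) * X))
    (hα : ∀ p j, ‖α p j‖ ≤ (p : ℝ)) (F : ℂ → ℂ) (hent : Differentiable ℂ F)
    (hF : ∀ s : ℂ, 2 < s.re →
      HasProd (fun p : Nat.Primes => (aeval ((p : ℂ) ^ (-s)) (P p))⁻¹) (F s))
    (h0 : F (-1) = 0) (h1 : deriv F (-1) ≠ 0) {γ : ℝ} (hγ : Real.pi / 2 < γ) :
    (∀ T : ℝ, 0 < T → Summable fun z => ‖term α γ T z‖) ∧
    (fun T : ℝ => Complex.exp (S α γ T) * T * Complex.exp (-Lam γ) - deriv F (-1)) =O[atTop]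
      (fun T : ℝ => 1 / T) ∧
    deriv F (-1) = (-1) ^ (count F) * (‖deriv F (-1)‖ : ℂ) ∧
    ∀ ρ : ℝ, ρ ≠ 0 → ((∃ x : ℚ, x ≠ 0 ∧ (ρ : ℂ) = x * deriv F (-1)) ↔
      ∃ D : ℕ, 0 < D ∧ ∃ t : ℕ → ℝ, Tendsto t atTop atTop ∧ Tendsto (fun i =>
        distInt (D * (Complex.exp (S α γ (t i)) * t i * Complex.exp (-Lam γ) / ρ))) atTop (𝓝 0)) := by
  obtain ⟨hs, m, r, g1, g2, g3, g4⟩ := q_law (w := 2) P α hP (by simpa using hα) F (-1)
    (fun σ _ => (hent.analyticAt _).meromorphicAt)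
    (fun s hs => hF s (by norm_num at hs; exact hs)) hγ
  have hS : ∀ T, smooth (fun p : Nat.Primes => (p : ℝ)) α (-1) γ T = S α γ T := by
    intro T
    unfold smooth S
    simp only [term_eq]
  simp only [hS] at g4
  have e1 : ((-1 : ℝ) : ℂ) = -1 := by push_cast; rfl
  have hlim := deriv_rate (hent.analyticAt _) (by rw [e1]; exact h0) (by rw [e1]; exact h1) g1 g2 g3 g4
  rw [e1] at hlim
  have hrate : (fun T : ℝ => Complex.exp (S α γ T) * T * Complex.exp (-Lam γ) - deriv F (-1))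
      =O[atTop] (fun T : ℝ => 1 / T) := hlim.1
  refine ⟨fun T hT => ?_, hrate, hlim.2, fun ρ hρ => ?_⟩
  · simp only [term_eq]
    exact hs T hT
  · exact rat_iff' (tendsto_of_rate hrate) h1 (by exact_mod_cast hρ)

end Pool.Agent.Results.MP_870c49_nt.TranscendentalDerivative
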